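import Mathlib

/-!
# Slice rank decompositions whose one-variable factors span a space of quadratic dimension

For every field and every `m ≥ 1` we construct an order-`3` tensor of slice rank `4 m - 1` such
that every subspace containing the third one-variable factors of all its minimal slice rank
decompositions has dimension at least `m ^ 2`.

The support of the tensor is a `3`-partite `3`-uniform hypergraph obtained from the complete graph
`K_t`, `t = 2 m`: every vertex `u` is split into a path `u¹ - p_u - u²`, the edge `u v` (`u < v`)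
becomes `u¹ v²`, and every edge gets a private third vertex.  With suitable orders of the three
vertex classes the support is an antichain, so that (Tao and Sawin) the slice rank is the vertex
cover number `2 t - 1`, and every private vertex `z_{uv}` is in a minimum cover.
-/

namespace Pool.Agent.Results.MP_626f3c_co.Quadratic

open Finset

/-! ## Definitions -/

/-- An order-`d` tensor over `F` of format `n`. -/
abbrev Tensor (F : Type*) {d : ℕ} (n : Fin d → ℕ) : Type _ := ((j : Fin d) → Fin (n j)) → F

/-- Delete the `j`-th coordinate of a point. -/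
def del {d : ℕ} {n : Fin d → ℕ} (j : Fin d) (x : (l : Fin d) → Fin (n l)) :
    (l : {l : Fin d // l ≠ j}) → Fin (n l.1) := fun l => x l.1

/-- `(s, u, v)` is a slice rank decomposition of `T` (of length `∑ j, s j`). -/
def IsDecomp {F : Type*} [Field F] {d : ℕ} {n : Fin d → ℕ} (T : Tensor F n) (s : Fin d → ℕ)
    (u : (j : Fin d) → Fin (s j) → Fin (n j) → F)
    (v : (j : Fin d) → Fin (s j) → ((l : {l : Fin d // l ≠ j}) → Fin (n l.1)) → F) : Prop :=
  ∀ x, T x = ∑ j, ∑ i, u j i (x j) * v j i (del j x)

/-- The slice rank of `T` is `k`: the least length of a slice rank decomposition. -/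
def HasSliceRank {F : Type*} [Field F] {d : ℕ} {n : Fin d → ℕ} (T : Tensor F n) (k : ℕ) : Prop :=
  (∃ s u v, IsDecomp T s u v ∧ ∑ j, s j = k) ∧ ∀ s u v, IsDecomp T s u v → k ≤ ∑ j, s j

/-- The bound `c` is admissible for `d` and `k`: for every order-`d` tensor of slice rank `k` over
any field there are subspaces `A_j` of dimension at most `c` containing the spans of the
one-variable factors of all slice rank decompositions of length `k`. -/
def Admissible (d k : ℕ) (c : ℝ) : Prop :=
  ∀ (F : Type) [Field F] (n : Fin d → ℕ), (∀ j, 1 ≤ n j) → ∀ T : Tensor F n, HasSliceRank T k →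
    ∃ A : (j : Fin d) → Submodule F (Fin (n j) → F),
      (∀ j, (Module.finrank F (A j) : ℝ) ≤ c) ∧
      ∀ s u v, IsDecomp T s u v → ∑ j, s j = k →
        ∀ j, Submodule.span F (Set.range (u j)) ≤ A j

/-! ## The lower bound of Tao and Sawin -/

section lower

variable {F : Type*} [Field F]

/-- Echelon form of the orthogonal complement. -/
theorem echelon {s n : ℕ} (u : Fin s → Fin n → F) :
    ∃ R : Finset (Fin n), R.card ≤ s ∧ ∀ x, x ∉ R → ∃ f : Fin n → F,
      (∀ i, ∑ a, u i a * f a = 0) ∧ f x ≠ 0 ∧ ∀ a, a < x → f a = 0 := by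
  classical
  let c : Fin n → (Fin s → F) := fun a i => u i a
  let R : Finset (Fin n) := univ.filter fun x => c x ∉ Submodule.span F (c '' {a | x < a})
  refine ⟨R, ?_, ?_⟩
  · have hli : LinearIndependent F (fun x : R => c x.1) := by
      rw [Fintype.linearIndependent_iff]
      intro g hg
      by_contra hcon
      push Not at hcon
      -- the smallest index with nonzero coefficient
      obtain ⟨x0, hx0⟩ := hcon
      have hne : (univ.filter fun x : R => g x ≠ 0).Nonempty := ⟨x0, by simp [hx0]⟩
      obtain ⟨x, hx, hmin⟩ := Finset.exists_min_image _ (fun x : R => x.1) hne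
      rw [mem_filter] at hx
      have hxR := x.2
      simp only [R, mem_filter, mem_univ, true_and] at hxR
      apply hxR
      have h1 : g x • c x.1 = - ∑ y ∈ univ.erase x, g y • c y.1 := by
        rw [← Finset.add_sum_erase _ _ (mem_univ x)] at hg
        exact eq_neg_of_add_eq_zero_left hg
      have h2 : c x.1 = (g x)⁻¹ • (- ∑ y ∈ univ.erase x, g y • c y.1) := by
        rw [← h1, smul_smul, inv_mul_cancel₀ hx.2, one_smul]
      rw [h2]
      apply Submodule.smul_mem
      apply Submodule.neg_mem
      apply Submodule.sum_mem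
      intro y hy
      by_cases hgy : g y = 0
      · rw [hgy, zero_smul]; exact Submodule.zero_mem _
      · apply Submodule.smul_mem
        apply Submodule.subset_span
        refine ⟨y.1, ?_, rfl⟩
        have h3 := hmin y (by simp [hgy])
        have h4 : y ≠ x := Finset.ne_of_mem_erase hy
        exact lt_of_le_of_ne h3 (fun h => h4 (Subtype.ext h).symm)
    have h1 := hli.fintype_card_le_finrank
    rwa [Fintype.card_coe, Module.finrank_fin_fun] at h1
  · intro x hx
    simp only [R, mem_filter, mem_univ, true_and, not_not] at hx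
    have h1 : ({a | x < a} : Set (Fin n)) = ((univ.filter fun a => x < a : Finset (Fin n)) : Set _) := by
      ext a; simp
    rw [h1, Submodule.mem_span_image_finset_iff_exists_fun'] at hx
    obtain ⟨g, hg⟩ := hx
    refine ⟨fun a => if a = x then -1 else if x < a then g a else 0, ?_, by simp, ?_⟩
    · intro i
      have h2 := congrFun hg i
      simp only [Finset.sum_apply, Pi.smul_apply, smul_eq_mul, c, Finset.sum_filter] at h2
      rw [← Finset.add_sum_erase _ _ (mem_univ x)]
      rw [← Finset.add_sum_erase _ _ (mem_univ x)] at h2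
      simp only [if_true, lt_irrefl, if_false, zero_add] at h2 ⊢
      have h3 : ∑ a ∈ univ.erase x, u i a * (if a = x then -1 else if x < a then g a else 0) =
          ∑ a ∈ univ.erase x, (if x < a then g a * u i a else 0) := by
        refine Finset.sum_congr rfl fun a ha => ?_
        rw [if_neg (Finset.ne_of_mem_erase ha)]
        split_ifs
        · ring
        · ring
      rw [h3, h2]
      ring
    · intro a ha
      simp only [if_neg (ne_of_lt ha), if_neg (not_lt.2 ha.le)]

variable {d : ℕ} {n : Fin d → ℕ}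

/-- **Tao–Sawin**: for a tensor with antichain support, every slice rank decomposition gives a
cover of the support with as many points in each class as there are terms. -/
theorem exists_cover {T : Tensor F n}
    (hT : ∀ x y, T x ≠ 0 → T y ≠ 0 → (∀ j, x j ≤ y j) → x = y)
    {s : Fin d → ℕ} {u : (j : Fin d) → Fin (s j) → Fin (n j) → F}
    {v : (j : Fin d) → Fin (s j) → ((l : {l : Fin d // l ≠ j}) → Fin (n l.1)) → F}
    (h : IsDecomp T s u v) :
    ∃ R : (j : Fin d) → Finset (Fin (n j)), (∀ j, (R j).card ≤ s j) ∧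
      ∀ x, T x ≠ 0 → ∃ j, x j ∈ R j := by
  classical
  choose R hR1 hR2 using fun j => echelon (u j)
  refine ⟨R, hR1, fun x hx => ?_⟩
  by_contra hcon
  push Not at hcon
  choose f hf1 hf2 hf3 using fun j => hR2 j (x j) (hcon j)
  -- the contraction of `T` with the `f j`
  have h1 : ∑ a, T a * ∏ j, f j (a j) = T x * ∏ j, f j (x j) := by
    apply Finset.sum_eq_single x
    · intro a _ hax
      by_cases hle : ∀ j, x j ≤ a j
      · have : T a = 0 := by
          by_contra hTa
          exact hax (hT x a hx hTa hle).symm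
        rw [this, zero_mul]
      · push Not at hle
        obtain ⟨j, hj⟩ := hle
        rw [Finset.prod_eq_zero (mem_univ j) (hf3 j (a j) hj), mul_zero]
    · intro h; exact absurd (mem_univ _) h
  have h2 : ∑ a, T a * ∏ j, f j (a j) = 0 := by
    simp only [h _, Finset.sum_mul]
    rw [Finset.sum_comm]
    apply Finset.sum_eq_zero
    intro j _
    rw [Finset.sum_comm]
    apply Finset.sum_eq_zero
    intro i _
    rw [← (Equiv.piSplitAt j fun l => Fin (n l)).symm.sum_comp, Fintype.sum_prod_type_right]
    apply Finset.sum_eq_zero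
    intro y _
    have h3 : ∀ b : Fin (n j), (u j i ((Equiv.piSplitAt j fun l => Fin (n l)).symm (b, y) j) *
        v j i (del j ((Equiv.piSplitAt j fun l => Fin (n l)).symm (b, y)))) *
        ∏ l, f l ((Equiv.piSplitAt j fun l => Fin (n l)).symm (b, y) l) =
        (u j i b * f j b) * (v j i y * ∏ l : {l : Fin d // l ≠ j}, f l.1 (y l)) := by
      intro b
      have e1 : (Equiv.piSplitAt j fun l => Fin (n l)).symm (b, y) j = b := by
        simp [Equiv.piSplitAt]
      have e2 : del j ((Equiv.piSplitAt j fun l => Fin (n l)).symm (b, y)) = y := by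
        funext l
        simp [del, Equiv.piSplitAt, l.2]
      have e3 : ∏ l, f l ((Equiv.piSplitAt j fun l => Fin (n l)).symm (b, y) l) =
          f j b * ∏ l : {l : Fin d // l ≠ j}, f l.1 (y l) := by
        rw [Fintype.prod_eq_mul_prod_subtype_ne _ j, e1]
        congr 1
        refine Finset.prod_congr rfl fun l _ => ?_
        congr 1
        exact congrFun e2 l
      rw [e1, e2, e3]
      ring
    simp only [h3, ← Finset.sum_mul, hf1 j i, zero_mul]
  rw [h1] at h2
  rcases mul_eq_zero.1 h2 with h3 | h3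
  · exact hx h3
  · rw [Finset.prod_eq_zero_iff] at h3
    obtain ⟨j, -, hj⟩ := h3
    exact hf2 j hj

/-- A cover of the support gives a slice rank decomposition with standard basis vectors. -/
theorem decomp_of_cover {T : Tensor F n} (R : (j : Fin d) → Finset (Fin (n j)))
    (hR : ∀ x, T x ≠ 0 → ∃ j, x j ∈ R j) :
    ∃ (u : (j : Fin d) → Fin ((R j).card) → Fin (n j) → F)
      (v : (j : Fin d) → Fin ((R j).card) → ((l : {l : Fin d // l ≠ j}) → Fin (n l.1)) → F),
      IsDecomp T (fun j => (R j).card) u v ∧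
      ∀ j, ∀ r ∈ R j, (Pi.single r 1 : Fin (n j) → F) ∈ Set.range (u j) := by
  classical
  let e : (j : Fin d) → Fin ((R j).card) ≃ R j := fun j => (R j).equivFin.symm
  refine ⟨fun j i => Pi.single (e j i).1 1, fun j i y =>
    if ∀ l : {l : Fin d // l ≠ j}, l.1 < j → y l ∉ R l.1 then
      T ((Equiv.piSplitAt j fun l => Fin (n l)).symm ((e j i).1, y)) else 0, ?_, ?_⟩
  · intro x
    have h1 : ∀ j, ∑ i, (Pi.single (e j i).1 1 : Fin (n j) → F) (x j) *
        (if ∀ l : {l : Fin d // l ≠ j}, l.1 < j → del j x l ∉ R l.1 then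
          T ((Equiv.piSplitAt j fun l => Fin (n l)).symm ((e j i).1, del j x)) else 0) =
        if x j ∈ R j ∧ ∀ l, l < j → x l ∉ R l then T x else 0 := by
      intro j
      have h2 : (∀ l : {l : Fin d // l ≠ j}, l.1 < j → del j x l ∉ R l.1) ↔
          ∀ l, l < j → x l ∉ R l :=
        ⟨fun h l hl => h ⟨l, hl.ne⟩ hl, fun h l hl => h l.1 hl⟩
      by_cases hxj : x j ∈ R j
      · rw [Finset.sum_eq_single ((e j).symm ⟨x j, hxj⟩)]
        · rw [Equiv.apply_symm_apply]
          have h3 : (Equiv.piSplitAt j fun l => Fin (n l)).symm (x j, del j x) = x := by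
            rw [Equiv.symm_apply_eq]
            rfl
          simp only [h2, h3, Pi.single_eq_same, one_mul, hxj, true_and]
        · intro i _ hi
          rw [Pi.single_eq_of_ne, zero_mul]
          intro h
          apply hi
          rw [Equiv.eq_symm_apply]
          exact Subtype.ext h.symm
        · intro h; exact absurd (mem_univ _) h
      · rw [if_neg (fun h => hxj h.1)]
        apply Finset.sum_eq_zero
        intro i _
        rw [Pi.single_eq_of_ne, zero_mul]
        intro h
        apply hxj
        rw [h]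
        exact (e j i).2
    simp only [h1]
    by_cases hex : ∃ j, x j ∈ R j
    · -- the least such `j`
      have hne : (univ.filter fun j => x j ∈ R j).Nonempty := by
        obtain ⟨j, hj⟩ := hex; exact ⟨j, by simp [hj]⟩
      obtain ⟨j, hj, hmin⟩ := Finset.exists_min_image _ (fun j => j) hne
      rw [mem_filter] at hj
      rw [Finset.sum_eq_single j]
      · rw [if_pos]
        refine ⟨hj.2, fun l hl hxl => ?_⟩
        exact absurd (hmin l (by simp [hxl])) (not_le.2 hl)
      · intro l _ hlj
        rw [if_neg]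
        rintro ⟨h2, h3⟩
        rcases lt_trichotomy l j with h4 | h4 | h4
        · exact absurd (hmin l (by simp [h2])) (not_le.2 h4)
        · exact hlj h4
        · exact h3 j h4 hj.2
      · intro h; exact absurd (mem_univ _) h
    · have hT0 : T x = 0 := by
        by_contra h; exact hex (hR x h)
      push Not at hex
      rw [hT0]
      symm
      apply Finset.sum_eq_zero
      intro j _
      rw [if_neg (fun h => hex j h.1)]
  · intro j r hr
    refine ⟨(e j).symm ⟨r, hr⟩, ?_⟩
    change (Pi.single ((e j) ((e j).symm ⟨r, hr⟩)).1 1 : Fin (n j) → F) = _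
    rw [Equiv.apply_symm_apply]

end lower

/-! ## The hypergraph -/

/-- The position of `z_{uv}`. -/
def zeta (t u v : ℕ) : ℕ := t + (t * t - 1 - (u * t + v))

/-- The support of the tensor. -/
def Supp (t a b c : ℕ) : Prop :=
  (a < b ∧ b < t ∧ c = zeta t a b) ∨ (a < t ∧ b = 2 * t - 1 - a ∧ c = a) ∨
    (b < t ∧ a = 2 * t - 1 - b ∧ c = b)

theorem pair_lt {t u v : ℕ} (hu : u < t) (hv : v < t) : u * t + v < t * t := by nlinarith

theorem zeta_inj {t a b a' b' : ℕ} (ha : a < t) (hb : b < t) (ha' : a' < t) (hb' : b' < t)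
    (h : zeta t a b = zeta t a' b') : a = a' ∧ b = b' := by
  have h1 := pair_lt ha hb
  have h2 := pair_lt ha' hb'
  have h3 : a * t + b = a' * t + b' := by unfold zeta at h; omega
  have h4 : a = a' := by
    rcases lt_trichotomy a a' with h | h | h
    · nlinarith
    · exact h
    · nlinarith
  subst h4
  exact ⟨rfl, by omega⟩

theorem supp_antichain {t a b c a' b' c' : ℕ} (h : Supp t a b c) (h' : Supp t a' b' c')
    (ha : a ≤ a') (hb : b ≤ b') (hc : c ≤ c') : a = a' ∧ b = b' ∧ c = c' := by
  rcases h with ⟨h1, h2, h3⟩ | ⟨h1, h2, h3⟩ | ⟨h1, h2, h3⟩ <;>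
    rcases h' with ⟨h1', h2', h3'⟩ | ⟨h1', h2', h3'⟩ | ⟨h1', h2', h3'⟩
  · have e1 := pair_lt (h1.trans h2) h2
    have e2 := pair_lt (h1'.trans h2') h2'
    have e3 : a * t + b ≤ a' * t + b' := add_le_add (Nat.mul_le_mul_right t ha) hb
    have e4 : zeta t a b = zeta t a' b' := by
      unfold zeta at *; omega
    obtain ⟨e5, e6⟩ := zeta_inj (h1.trans h2) h2 (h1'.trans h2') h2' e4
    exact ⟨e5, e6, by rw [h3, h3', e4]⟩
  · exfalso; unfold zeta at h3; omega
  · exfalso; unfold zeta at h3; omega
  · exfalso; omega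
  · omega
  · exfalso; omega
  · exfalso; omega
  · exfalso; omega
  · omega

/-- Every cover has at least `2 t - 1` points. -/
theorem cover_lower {t : ℕ} (ht : 1 ≤ t) (N0 N1 N2 : Finset ℕ)
    (h : ∀ a b c, Supp t a b c → a ∈ N0 ∨ b ∈ N1 ∨ c ∈ N2) :
    2 * t - 1 ≤ N0.card + N1.card + N2.card := by
  classical
  -- the vertices whose gadget contains only the middle point
  let W := (range t).filter fun u => u ∉ N0 ∧ u ∉ N1 ∧ 2 * t - 1 - u ∉ N0 ∧ 2 * t - 1 - u ∉ N1
  obtain ⟨w, hwt, hw⟩ : ∃ w < t, ∀ u ∈ W, w ≤ u ∧ w ∈ W := by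
    by_cases hW : W.Nonempty
    · obtain ⟨w, hw, hmin⟩ := Finset.exists_min_image W (fun u => u) hW
      exact ⟨w, mem_range.1 (mem_filter.1 hw).1, fun u hu => ⟨hmin u hu, hw⟩⟩
    · rw [Finset.not_nonempty_iff_eq_empty] at hW
      exact ⟨0, by omega, fun u hu => by rw [hW] at hu; exact absurd hu (notMem_empty _)⟩
  have card2 : ∀ (N : Finset ℕ) (f g : ℕ → ℕ), (∀ a < t, ∀ b < t, f a = f b → a = b) →
      (∀ a < t, ∀ b < t, g a = g b → a = b) → (∀ a < t, ∀ b < t, f a ≠ g b) →
      ∑ u ∈ range t, ((if f u ∈ N then 1 else 0) + (if g u ∈ N then 1 else 0)) ≤ N.card := by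
    intro N f g hf hg hfg
    rw [Finset.sum_add_distrib, ← Finset.card_filter, ← Finset.card_filter]
    have h1 : ((range t).filter fun u => f u ∈ N).card =
        (((range t).filter fun u => f u ∈ N).image f).card := by
      symm
      apply Finset.card_image_of_injOn
      intro a ha b hb hab
      rw [coe_filter, Set.mem_ofPred_eq, mem_range] at ha hb
      exact hf a ha.1 b hb.1 hab
    have h2 : ((range t).filter fun u => g u ∈ N).card =
        (((range t).filter fun u => g u ∈ N).image g).card := by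
      symm
      apply Finset.card_image_of_injOn
      intro a ha b hb hab
      rw [coe_filter, Set.mem_ofPred_eq, mem_range] at ha hb
      exact hg a ha.1 b hb.1 hab
    rw [h1, h2, ← Finset.card_union_of_disjoint]
    · apply Finset.card_le_card
      intro z hz
      rw [mem_union, mem_image, mem_image] at hz
      rcases hz with ⟨u, hu, rfl⟩ | ⟨u, hu, rfl⟩
      · exact (mem_filter.1 hu).2
      · exact (mem_filter.1 hu).2
    · rw [Finset.disjoint_left]
      intro z hz hz'
      rw [mem_image] at hz hz'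
      obtain ⟨a, ha, rfl⟩ := hz
      obtain ⟨b, hb, hab⟩ := hz'
      exact hfg a (mem_range.1 (mem_filter.1 ha).1) b (mem_range.1 (mem_filter.1 hb).1) hab.symm
  have c0 := card2 N0 (fun u => u) (fun u => 2 * t - 1 - u) (fun a _ b _ h => h)
    (fun a ha b hb h => by omega) (fun a ha b hb h => by omega)
  have c1 := card2 N1 (fun u => u) (fun u => 2 * t - 1 - u) (fun a _ b _ h => h)
    (fun a ha b hb h => by omega) (fun a ha b hb h => by omega)
  have c2 := card2 N2 (fun u => u) (fun u => zeta t w u) (fun a _ b _ h => h)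
    (fun a ha b hb h => (zeta_inj hwt ha hwt hb h).2)
    (fun a ha b hb h => by simp only [zeta] at h; omega)
  have hsum : 2 * t - 1 ≤ ∑ u ∈ range t, (((if u ∈ N0 then 1 else 0) +
      (if 2 * t - 1 - u ∈ N0 then 1 else 0)) + ((if u ∈ N1 then 1 else 0) +
      (if 2 * t - 1 - u ∈ N1 then 1 else 0)) + ((if u ∈ N2 then 1 else 0) +
      (if zeta t w u ∈ N2 then 1 else 0))) := by
    have hpt : ∀ u ∈ range t, (if u = w then 1 else 2) ≤ (((if u ∈ N0 then 1 else 0) +
      (if 2 * t - 1 - u ∈ N0 then 1 else 0)) + ((if u ∈ N1 then 1 else 0) +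
      (if 2 * t - 1 - u ∈ N1 then 1 else 0)) + ((if u ∈ N2 then 1 else 0) +
      (if zeta t w u ∈ N2 then 1 else 0))) := by
      intro u hu
      rw [mem_range] at hu
      have h1 := h u (2 * t - 1 - u) u (Or.inr (Or.inl ⟨hu, rfl, rfl⟩))
      have h2 := h (2 * t - 1 - u) u u (Or.inr (Or.inr ⟨hu, rfl, rfl⟩))
      by_cases huW : u ∈ W
      · have h3 := mem_filter.1 huW
        have h4 : u ∈ N2 := by tauto
        by_cases huw : u = w
        · rw [if_pos huw, if_pos h4]; omega
        · have h5 := hw u huW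
          have h6 : w < u := lt_of_le_of_ne h5.1 (Ne.symm huw)
          have h7 := (mem_filter.1 h5.2).2
          have h8 := h w u (zeta t w u) (Or.inl ⟨h6, hu, rfl⟩)
          have h9 : zeta t w u ∈ N2 := by tauto
          rw [if_neg huw, if_pos h4, if_pos h9]; omega
      · have h3 : u ∈ N0 ∨ u ∈ N1 ∨ 2 * t - 1 - u ∈ N0 ∨ 2 * t - 1 - u ∈ N1 := by
          by_contra hcon
          push Not at hcon
          exact huW (mem_filter.2 ⟨mem_range.2 hu, hcon⟩)
        have h4 : (if u = w then 1 else 2) ≤ 2 := by split_ifs <;> omega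
        refine h4.trans ?_
        by_cases q1 : u ∈ N0 <;> by_cases q2 : 2 * t - 1 - u ∈ N0 <;> by_cases q3 : u ∈ N1 <;>
          by_cases q4 : 2 * t - 1 - u ∈ N1 <;> by_cases q5 : u ∈ N2 <;>
          simp only [q1, q2, q3, q4, q5, if_true, if_false] <;>
          first | omega | (exfalso; tauto)
    refine le_trans ?_ (Finset.sum_le_sum hpt)
    have h1 : ∑ u ∈ range t, (if u = w then 1 else 2) + 1 = 2 * t := by
      have h2 : ∀ u ∈ range t, (if u = w then 1 else 2) + (if u = w then 1 else 0) = 2 := by
        intro u _; split_ifs <;> rfl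
      have h3 : ∑ u ∈ range t, (if u = w then 1 else 0) = 1 := by
        rw [Finset.sum_ite_eq' (range t) w (fun _ => 1), if_pos (mem_range.2 hwt)]
      have h4 := Finset.sum_congr rfl h2
      rw [Finset.sum_add_distrib, h3] at h4
      rw [h4]
      simp [mul_comm]
    omega
  rw [Finset.sum_add_distrib, Finset.sum_add_distrib] at hsum
  exact hsum.trans (add_le_add (add_le_add c0 c1) c2)

/-! ## The tensor -/

/-- The format. -/
def dims (t : ℕ) : Fin 3 → ℕ
  | 0 => 2 * t
  | 1 => 2 * t
  | 2 => t + t * t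

open Classical in
/-- The tensor. -/
noncomputable def ten (F : Type*) [Field F] (t : ℕ) : Tensor F (dims t) := fun x =>
  if Supp t (x 0).val (x 1).val (x 2).val then 1 else 0

/-- A point with prescribed coordinates. -/
def pt (t : ℕ) {a b c : ℕ} (ha : a < 2 * t) (hb : b < 2 * t) (hc : c < t + t * t) :
    (j : Fin 3) → Fin (dims t j)
  | 0 => ⟨a, ha⟩
  | 1 => ⟨b, hb⟩
  | 2 => ⟨c, hc⟩

theorem supp_lt {t a b c : ℕ} (h : Supp t a b c) : a < 2 * t ∧ b < 2 * t ∧ c < t + t * t := by
  rcases h with ⟨h1, h2, h3⟩ | ⟨h1, h2, h3⟩ | ⟨h1, h2, h3⟩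
  · have := pair_lt (h1.trans h2) h2
    unfold zeta at h3
    omega
  · omega
  · omega

section main

variable {F : Type*} [Field F]

theorem ten_ne_zero {t : ℕ} {x : (j : Fin 3) → Fin (dims t j)} (h : ten F t x ≠ 0) :
    Supp t (x 0).val (x 1).val (x 2).val := by
  by_contra hcon
  apply h
  unfold ten
  rw [if_neg hcon]

theorem ten_antichain {t : ℕ} (x y : (j : Fin 3) → Fin (dims t j)) (hx : ten F t x ≠ 0)
    (hy : ten F t y ≠ 0) (hxy : ∀ j, x j ≤ y j) : x = y := by
  obtain ⟨h0, h1, h2⟩ := supp_antichain (ten_ne_zero hx) (ten_ne_zero hy) (hxy 0) (hxy 1) (hxy 2)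
  funext j
  fin_cases j
  · exact Fin.ext h0
  · exact Fin.ext h1
  · exact Fin.ext h2

theorem ten_lower {t : ℕ} (ht : 1 ≤ t) (R : (j : Fin 3) → Finset (Fin (dims t j)))
    (hR : ∀ x, ten F t x ≠ 0 → ∃ j, x j ∈ R j) : 2 * t - 1 ≤ ∑ j, (R j).card := by
  classical
  have h1 := cover_lower ht ((R 0).image fun r => r.val) ((R 1).image fun r => r.val)
    ((R 2).image fun r => r.val) (by
      intro a b c h
      obtain ⟨ha, hb, hc⟩ := supp_lt h
      obtain ⟨j, hj⟩ := hR (pt t ha hb hc) (by
        have h2 : ten F t (pt t ha hb hc) = 1 := if_pos h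
        rw [h2]
        exact one_ne_zero)
      fin_cases j
      · exact Or.inl (mem_image.2 ⟨_, hj, rfl⟩)
      · exact Or.inr (Or.inl (mem_image.2 ⟨_, hj, rfl⟩))
      · exact Or.inr (Or.inr (mem_image.2 ⟨_, hj, rfl⟩)))
  rw [Fin.sum_univ_three]
  refine h1.trans (add_le_add (add_le_add ?_ ?_) ?_)
  · exact card_image_le
  · exact card_image_le
  · exact card_image_le

/-- Every `z_{ab}` is in a cover with `2 t - 1` points. -/
theorem ten_cover {t a b : ℕ} (hab : a < b) (hb : b < t) :
    ∃ R : (j : Fin 3) → Finset (Fin (dims t j)), (∀ x, ten F t x ≠ 0 → ∃ j, x j ∈ R j) ∧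
      ∑ j, (R j).card = 2 * t - 1 ∧ ∃ r ∈ R 2, r.val = zeta t a b := by
  classical
  let N : Fin 3 → Finset ℕ := ![((range t).erase a).erase b, ((range t).erase a).erase b,
    {a, b, zeta t a b}]
  let R : (j : Fin 3) → Finset (Fin (dims t j)) := fun j => univ.filter fun r => r.val ∈ N j
  have hR : ∀ x, ten F t x ≠ 0 → ∃ j, x j ∈ R j := by
    intro x hx
    have h := ten_ne_zero hx
    simp only [R, mem_filter, mem_univ, true_and]
    by_contra hcon
    push Not at hcon
    have h0 := hcon 0
    have h1 := hcon 1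
    have h2 := hcon 2
    simp only [N, Matrix.cons_val_zero, Matrix.cons_val_one, Matrix.cons_val, mem_erase, mem_range,
      mem_insert, mem_singleton, not_and, not_or] at h0 h1 h2
    rcases h with ⟨g1, g2, g3⟩ | ⟨g1, g2, g3⟩ | ⟨g1, g2, g3⟩
    · have e1 : (x 0).val = a ∨ (x 0).val = b := by
        by_contra h3
        push Not at h3
        exact h0 h3.2 h3.1 (g1.trans g2)
      have e2 : (x 1).val = a ∨ (x 1).val = b := by
        by_contra h3
        push Not at h3
        exact h1 h3.2 h3.1 g2
      have e3 : (x 0).val = a := by omega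
      have e4 : (x 1).val = b := by omega
      rw [e3, e4] at g3
      exact h2.2.2 g3
    · have e1 : (x 0).val = a ∨ (x 0).val = b := by
        by_contra h3
        push Not at h3
        exact h0 h3.2 h3.1 g1
      omega
    · have e1 : (x 1).val = a ∨ (x 1).val = b := by
        by_contra h3
        push Not at h3
        exact h1 h3.2 h3.1 g1
      omega
  have hcard : ∀ j, (R j).card ≤ (N j).card := by
    intro j
    have : (R j).card = ((R j).image fun r => r.val).card :=
      (card_image_of_injective _ Fin.val_injective).symm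
    rw [this]
    apply card_le_card
    intro z hz
    obtain ⟨r, hr, rfl⟩ := mem_image.1 hz
    exact (mem_filter.1 hr).2
  refine ⟨R, hR, ?_, ?_⟩
  · apply le_antisymm
    · rw [Fin.sum_univ_three]
      have h0 := hcard 0
      have h1 := hcard 1
      have h2 := hcard 2
      have e1 : (((range t).erase a).erase b).card = t - 2 := by
        rw [card_erase_of_mem (mem_erase.2 ⟨by omega, mem_range.2 hb⟩),
          card_erase_of_mem (mem_range.2 (hab.trans hb)), card_range]
        omega
      have e2 : ({a, b, zeta t a b} : Finset ℕ).card ≤ 3 := card_le_three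
      simp only [N, Matrix.cons_val_zero, Matrix.cons_val_one, Matrix.cons_val] at h0 h1 h2
      omega
    · exact ten_lower (F := F) (by omega) R hR
  · have h1 : zeta t a b < t + t * t := by
      have := pair_lt (hab.trans hb) hb
      unfold zeta; omega
    refine ⟨(⟨zeta t a b, h1⟩ : Fin (t + t * t)), ?_, rfl⟩
    apply mem_filter.2
    refine ⟨mem_univ _, ?_⟩
    change zeta t a b ∈ ({a, b, zeta t a b} : Finset ℕ)
    rw [mem_insert, mem_insert, mem_singleton]
    exact Or.inr (Or.inr rfl)

theorem ten_sliceRank {t : ℕ} (ht : 2 ≤ t) : HasSliceRank (ten F t) (2 * t - 1) := by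
  constructor
  · obtain ⟨R, hR, hsum, -⟩ := ten_cover (F := F) (show 0 < 1 by norm_num) (show 1 < t by omega)
    obtain ⟨u, v, h, -⟩ := decomp_of_cover R hR
    exact ⟨_, u, v, h, hsum⟩
  · intro s u v h
    obtain ⟨R, hR1, hR2⟩ := exists_cover (ten_antichain (F := F)) h
    exact (ten_lower (F := F) (by omega) R hR2).trans (Finset.sum_le_sum fun j _ => hR1 j)

/-- The dimension bound. -/
theorem ten_dim {m : ℕ} (hm : 1 ≤ m) (A : Submodule F (Fin (dims (2 * m) 2) → F))
    (hA : ∀ s u v, IsDecomp (ten F (2 * m)) s u v → ∑ j, s j = 2 * (2 * m) - 1 →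
      Submodule.span F (Set.range (u 2)) ≤ A) : m ^ 2 ≤ Module.finrank F A := by
  have h1 : ∀ p : Fin m × Fin m, ∃ r : Fin (dims (2 * m) 2),
      r.val = zeta (2 * m) p.1.val (m + p.2.val) ∧ (Pi.single r 1 : Fin (dims (2 * m) 2) → F) ∈ A := by
    intro p
    obtain ⟨R, hR, hsum, r, hr, hrv⟩ := ten_cover (F := F) (t := 2 * m) (a := p.1.val)
      (b := m + p.2.val) (by omega) (by omega)
    obtain ⟨u, v, h, hu⟩ := decomp_of_cover R hR
    exact ⟨r, hrv, hA _ u v h hsum (Submodule.subset_span (hu 2 r hr))⟩
  choose ρ hρ1 hρ2 using h1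
  have hinj : Function.Injective ρ := by
    intro p q hpq
    have h2 := hρ1 p
    rw [hpq, hρ1 q] at h2
    obtain ⟨h3, h4⟩ := zeta_inj (by omega) (by omega) (by omega) (by omega) h2
    exact Prod.ext (Fin.ext h3.symm) (Fin.ext (by omega))
  have hli : LinearIndependent F (fun p => (⟨Pi.single (ρ p) 1, hρ2 p⟩ : A)) := by
    apply LinearIndependent.of_comp A.subtype
    have h2 : LinearIndependent F (fun r : Fin (dims (2 * m) 2) =>
        (Pi.single r 1 : Fin (dims (2 * m) 2) → F)) := by
      have := (Pi.basisFun F (Fin (dims (2 * m) 2))).linearIndependent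
      convert this using 1
      funext r
      simp
    exact h2.comp ρ hinj
  have h2 := hli.fintype_card_le_finrank
  rw [Fintype.card_prod, Fintype.card_fin] at h2
  rw [pow_two]
  exact h2

end main

/-- **The answer to Q1 is negative.**  First part: over every field, for every `m ≥ 1` there is an
order-`3` tensor of slice rank `4 m - 1` such that every subspace `A` which contains the spans of
the third one-variable factors of all minimal slice rank decompositions has dimension at least
`m ^ 2`.  Second part: the negation of Q1. -/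
theorem result :
    (∀ (F : Type) [Field F] (m : ℕ), 1 ≤ m → ∃ n : Fin 3 → ℕ, (∀ j, 1 ≤ n j) ∧
      ∃ T : Tensor F n, HasSliceRank T (4 * m - 1) ∧
        ∀ A : Submodule F (Fin (n 2) → F),
          (∀ s u v, IsDecomp T s u v → ∑ j, s j = 4 * m - 1 →
            Submodule.span F (Set.range (u 2)) ≤ A) → m ^ 2 ≤ Module.finrank F A) ∧
    ¬ ∀ d : ℕ, 3 ≤ d → ∃ K : ℝ, ∀ k : ℕ, 1 ≤ k → Admissible d k (K * k) := by
  have main : ∀ (F : Type) [Field F] (m : ℕ), 1 ≤ m → ∃ n : Fin 3 → ℕ, (∀ j, 1 ≤ n j) ∧
      ∃ T : Tensor F n, HasSliceRank T (4 * m - 1) ∧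
        ∀ A : Submodule F (Fin (n 2) → F),
          (∀ s u v, IsDecomp T s u v → ∑ j, s j = 4 * m - 1 →
            Submodule.span F (Set.range (u 2)) ≤ A) → m ^ 2 ≤ Module.finrank F A := by
    intro F _ m hm
    have e : 2 * (2 * m) - 1 = 4 * m - 1 := by omega
    refine ⟨dims (2 * m), ?_, ten F (2 * m), ?_, ?_⟩
    · intro j
      fin_cases j
      · change 1 ≤ 2 * (2 * m); omega
      · change 1 ≤ 2 * (2 * m); omega
      · change 1 ≤ 2 * m + 2 * m * (2 * m); omega
    · rw [← e]; exact ten_sliceRank (by omega)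
    · intro A hA
      exact ten_dim hm A (by rw [e]; exact hA)
  refine ⟨main, fun h => ?_⟩
  obtain ⟨K, hK⟩ := h 3 (le_refl _)
  obtain ⟨m, hm⟩ := exists_nat_gt (4 * |K| + 1)
  have hm1 : 1 ≤ m := by
    have h1 : (0 : ℝ) < m := by linarith [abs_nonneg K]
    exact_mod_cast h1
  obtain ⟨n, hn, T, hT, hA⟩ := main ℚ m hm1
  obtain ⟨A, hA1, hA2⟩ := hK (4 * m - 1) (by omega) ℚ n hn T hT
  have h1 := hA (A 2) (fun s u v h hs => hA2 s u v h hs 2)
  have h2 := hA1 2
  have h3 : ((m ^ 2 : ℕ) : ℝ) ≤ K * ((4 * m - 1 : ℕ) : ℝ) := le_trans (by exact_mod_cast h1) h2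
  have h4 : ((4 * m - 1 : ℕ) : ℝ) ≤ 4 * m := by
    have : 4 * m - 1 ≤ 4 * m := Nat.sub_le _ _
    exact_mod_cast this
  have h5 : K * ((4 * m - 1 : ℕ) : ℝ) ≤ |K| * (4 * m) := by
    refine le_trans (mul_le_mul_of_nonneg_right (le_abs_self K) (Nat.cast_nonneg _)) ?_
    exact mul_le_mul_of_nonneg_left h4 (abs_nonneg K)
  have h6 : (m : ℝ) ^ 2 ≤ |K| * (4 * m) := by
    have := h3.trans h5
    push_cast at this
    exact this
  have h7 : (0 : ℝ) < m := by exact_mod_cast hm1
  nlinarith

end Pool.Agent.Results.MP_626f3c_co.Quadratic
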